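import Pool.Agent.N71.RP.Stm
import Pool.Agent.H38R2.CG.KR
import Pool.Agent.H38R2.CG.N2

set_option autoImplicit false

/-!
Project RP (helper71), leaf CHR (helper736): the characters of two fundamental discriminants and their
product.
-/

namespace Pool.Agent.N736.RP

open Finset Pool.Agent.H38R2.CG

/-- the sum over a full period -/
lemma period_sum {N : ℕ} [NeZero N] (χ : DirichletCharacter ℂ N) (hχ : χ ≠ 1) (a : ℕ) :
    ∑ n ∈ Finset.Ioc a (a + N), χ (n : ZMod N) = 0 := by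
  have hN : 0 < N := Nat.pos_of_ne_zero (NeZero.ne N)
  rw [← MulChar.sum_eq_zero_of_ne_one hχ]
  refine Finset.sum_nbij (fun n : ℕ => (n : ZMod N)) (fun n _ => Finset.mem_univ _) ?_ ?_
    (fun n _ => rfl)
  · intro n hn m hm h
    rw [Finset.mem_coe, Finset.mem_Ioc] at hn hm
    have h1 : n ≡ m [MOD N] := (ZMod.natCast_eq_natCast_iff n m N).1 h
    rcases le_total n m with hle | hle
    · have h2 : N ∣ m - n := (Nat.modEq_iff_dvd' hle).1 h1
      rcases Nat.eq_zero_or_pos (m - n) with h3 | h3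
      · omega
      · have := Nat.le_of_dvd h3 h2
        omega
    · have h2 : N ∣ n - m := (Nat.modEq_iff_dvd' hle).1 h1.symm
      rcases Nat.eq_zero_or_pos (n - m) with h3 | h3
      · omega
      · have := Nat.le_of_dvd h3 h2
        omega
  · intro x _
    obtain ⟨v, hv⟩ : ∃ v : ℕ, v = (x - ((a + 1 : ℕ) : ZMod N)).val := ⟨_, rfl⟩
    have hvN : v < N := by rw [hv]; exact ZMod.val_lt _
    refine ⟨a + 1 + v, ?_, ?_⟩
    · rw [Finset.mem_coe, Finset.mem_Ioc]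
      omega
    · simp only
      rw [Nat.cast_add, hv, ZMod.natCast_zmod_val]
      ring

/-- partial sums of a nonprincipal character -/
lemma partial_sum {N : ℕ} (hN : 1 ≤ N) (χ : DirichletCharacter ℂ N) (hχ : χ ≠ 1) (t : ℕ) :
    ‖∑ n ∈ Finset.Icc 1 t, χ (n : ZMod N)‖ ≤ N := by
  have : NeZero N := ⟨by omega⟩
  induction t using Nat.strong_induction_on with
  | _ t ih =>
    rcases Nat.lt_or_ge t N with h | h
    · refine (norm_sum_le _ _).trans ?_
      refine (Finset.sum_le_sum fun (n : ℕ) _ => χ.norm_le_one ((n : ℕ) : ZMod N)).trans ?_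
      rw [Finset.sum_const, Nat.card_Icc, nsmul_eq_mul, mul_one]
      have : t + 1 - 1 ≤ N := by omega
      exact_mod_cast this
    · have h1 : ∑ n ∈ Finset.Icc 1 t, χ (n : ZMod N) =
          ∑ n ∈ Finset.Icc 1 (t - N), χ (n : ZMod N) := by
        have h2 : Finset.Icc 1 t = Finset.Icc 1 (t - N) ∪ Finset.Ioc (t - N) (t - N + N) := by
          ext n
          simp only [Finset.mem_Icc, Finset.mem_union, Finset.mem_Ioc]
          omega
        have h3 : Disjoint (Finset.Icc 1 (t - N)) (Finset.Ioc (t - N) (t - N + N)) := by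
          rw [Finset.disjoint_left]
          intro n hn hn'
          rw [Finset.mem_Icc] at hn
          rw [Finset.mem_Ioc] at hn'
          omega
        rw [h2, Finset.sum_union h3, period_sum χ hχ, add_zero]
      rw [h1]
      exact ih (t - N) (by omega)

lemma real_sum {N : ℕ} (hN : 1 ≤ N) (χ : DirichletCharacter ℂ N) (hχ : χ ≠ 1) (g : ℕ → ℝ)
    (hg : ∀ n : ℕ, 1 ≤ n → χ (n : ZMod N) = (g n : ℂ)) (t : ℕ) :
    |∑ n ∈ Finset.Icc 1 t, g n| ≤ N := by
  have h := partial_sum hN χ hχ t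
  have h1 : ∑ n ∈ Finset.Icc 1 t, χ (n : ZMod N) = ((∑ n ∈ Finset.Icc 1 t, g n : ℝ) : ℂ) := by
    push_cast
    exact Finset.sum_congr rfl fun n hn => hg n (Finset.mem_Icc.1 hn).1
  rw [h1, Complex.norm_real, Real.norm_eq_abs] at h
  exact h

lemma sqf_eq {a b : ℕ} (ha : Squarefree a) (hb : Squarefree b) (h : IsSquare (a * b)) : a = b := by
  obtain ⟨x, hx⟩ := h
  have ha0 := ha.ne_zero
  have hb0 := hb.ne_zero
  have hx0 : x ≠ 0 := by
    rintro rfl
    rw [mul_zero] at hx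
    rcases Nat.mul_eq_zero.1 hx with h | h
    · exact ha0 h
    · exact hb0 h
  refine Nat.eq_of_factorization_eq ha0 hb0 fun p => ?_
  have h1 := congrArg (fun n => n.factorization p) hx
  simp only [Nat.factorization_mul ha0 hb0, Nat.factorization_mul hx0 hx0, Finsupp.add_apply] at h1
  have h2 := ha.natFactorization_le_one p
  have h3 := hb.natFactorization_le_one p
  omega

lemma sq_cancel {c m : ℕ} (hc : c ≠ 0) (h : IsSquare (c ^ 2 * m)) : IsSquare m := by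
  obtain ⟨x, hx⟩ := h
  have h1 : c ^ 2 ∣ x ^ 2 := ⟨m, by rw [hx, sq]⟩
  obtain ⟨y, rfl⟩ := (Nat.pow_dvd_pow_iff (by norm_num)).1 h1
  refine ⟨y, ?_⟩
  have h2 : 0 < c ^ 2 := by positivity
  apply Nat.eq_of_mul_eq_mul_left h2
  rw [hx]
  ring

lemma fund_core {D : ℕ} (h : IsFund D) : ∃ d : ℕ, Squarefree d ∧
    ((D = d ∧ d % 4 = 1) ∨ (D = 2 ^ 2 * d ∧ d % 4 ≠ 1)) := by
  rcases h.2 with ⟨h1, h2⟩ | ⟨m, h1, h2, h3⟩
  · exact ⟨D, h2, Or.inl ⟨rfl, h1⟩⟩
  · exact ⟨m, h3, Or.inr ⟨by rw [h1]; norm_num, by omega⟩⟩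

lemma not_sq {D₁ D₂ : ℕ} (h1 : IsFund D₁) (h2 : IsFund D₂) (hne : D₁ ≠ D₂) :
    ¬ IsSquare (D₁ * D₂) := by
  intro hsq
  obtain ⟨d1, hd1, c1⟩ := fund_core h1
  obtain ⟨d2, hd2, c2⟩ := fund_core h2
  have h12 : IsSquare (d1 * d2) := by
    rcases c1 with ⟨c1, -⟩ | ⟨c1, -⟩ <;> rcases c2 with ⟨c2, -⟩ | ⟨c2, -⟩
    · rw [← c1, ← c2]; exact hsq
    · refine sq_cancel (c := 2) (by norm_num) ?_
      have : 2 ^ 2 * (d1 * d2) = D₁ * D₂ := by rw [c1, c2]; ring
      rw [this]; exact hsq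
    · refine sq_cancel (c := 2) (by norm_num) ?_
      have : 2 ^ 2 * (d1 * d2) = D₁ * D₂ := by rw [c1, c2]; ring
      rw [this]; exact hsq
    · refine sq_cancel (c := 4) (by norm_num) ?_
      have : 4 ^ 2 * (d1 * d2) = D₁ * D₂ := by rw [c1, c2]; ring
      rw [this]; exact hsq
  have heq := sqf_eq hd1 hd2 h12
  subst heq
  apply hne
  rcases c1 with ⟨c1, e1⟩ | ⟨c1, e1⟩ <;> rcases c2 with ⟨c2, e2⟩ | ⟨c2, e2⟩
  · rw [c1, c2]
  · exact absurd e1 e2
  · exact absurd e2 e1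
  · rw [c1, c2]

/-- a number at which the Jacobi symbol of a nonsquare is `-1` -/
lemma exists_neg {N : ℕ} (hN : 0 < N) (hsq : ¬ IsSquare N) : ∃ n : ℕ, 1 ≤ n ∧ Odd n ∧
    Nat.Coprime n N ∧ jacobiSym N n = -1 := by
  obtain ⟨r, s, hrs, hr⟩ := Nat.sq_mul_squarefree N
  have hr0 : r ≠ 0 := hr.ne_zero
  have hr1 : r ≠ 1 := by
    rintro rfl
    exact hsq ⟨s, by rw [← hrs]; ring⟩
  have h4 : r % 4 ≠ 0 := by
    intro h
    have h5 : 2 * 2 ∣ r := Nat.dvd_of_mod_eq_zero (by simpa using h)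
    have := hr 2 h5
    rw [Nat.isUnit_iff] at this
    omega
  obtain ⟨R, hR, hRfund, hRj⟩ : ∃ R : ℕ, 1 < R ∧ IsFund R ∧
      ∀ n : ℕ, Odd n → jacobiSym R n = jacobiSym r n := by
    by_cases h : r % 4 = 1
    · exact ⟨r, by omega, ⟨by omega, Or.inl ⟨h, hr⟩⟩, fun n _ => rfl⟩
    · refine ⟨4 * r, by omega, ⟨by omega, Or.inr ⟨r, rfl, by omega, hr⟩⟩, fun n hn => ?_⟩
      rw [Nat.cast_mul, Nat.cast_ofNat, jacobiSym.mul_left, jacobiSym.at_four hn, one_mul]
  obtain ⟨χ, hχ, hval⟩ := T_KR R hRfund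
  obtain ⟨u, hu⟩ := MulChar.ne_one_iff.1 hχ
  have hdvd : R ∣ R * (2 * N) := Dvd.intro _ rfl
  have : NeZero (R * (2 * N)) := ⟨by positivity⟩
  have : NeZero R := ⟨by omega⟩
  obtain ⟨v, hv⟩ := ZMod.unitsMap_surjective hdvd u
  obtain ⟨n, hn⟩ : ∃ n : ℕ, n = (v : ZMod (R * (2 * N))).val := ⟨_, rfl⟩
  have hcop : Nat.Coprime n (R * (2 * N)) := by rw [hn]; exact ZMod.val_coe_unit_coprime v
  have hnu : (n : ZMod R) = (u : ZMod R) := by
    rw [← hv, hn, ZMod.unitsMap_val, ZMod.natCast_val]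
  have hn2 : Nat.Coprime n 2 := Nat.Coprime.coprime_dvd_right ⟨R * N, by ring⟩ hcop
  have hnN : Nat.Coprime n N := Nat.Coprime.coprime_dvd_right ⟨R * 2, by ring⟩ hcop
  have hodd : Odd n := Nat.coprime_two_right.1 hn2
  have hn1 : 1 ≤ n := hodd.pos
  have h5 : χ (n : ZMod R) ≠ 1 := by rw [hnu]; exact hu
  rw [hval n hn1, KRh.chi_odd hodd, hRj n hodd] at h5
  have h6 : jacobiSym r n ≠ 1 := by
    intro h
    rw [h] at h5
    exact h5 (by norm_num)
  have hnr : Nat.Coprime n r := by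
    refine Nat.Coprime.coprime_dvd_right ?_ hnN
    exact ⟨s ^ 2, by rw [← hrs]; ring⟩
  have hns : Nat.Coprime n s := by
    refine Nat.Coprime.coprime_dvd_right ?_ hnN
    exact ⟨s * r, by rw [← hrs]; ring⟩
  have h7 : jacobiSym r n = -1 := by
    rcases jacobiSym.eq_one_or_neg_one (a := (r : ℤ)) (b := n) (by
      rw [Int.gcd_natCast_natCast]; exact hnr.symm) with h | h
    · exact absurd h h6
    · exact h
  refine ⟨n, hn1, hodd, hnN, ?_⟩
  rw [← hrs, Nat.cast_mul, Nat.cast_pow, jacobiSym.mul_left, jacobiSym.pow_left, h7,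
    jacobiSym.sq_one (by rw [Int.gcd_natCast_natCast]; exact hns.symm), one_mul]

lemma chi_val (D : ℤ) (n : ℕ) : chi D n = 0 ∨ chi D n = 1 ∨ chi D n = -1 := by
  have h2 : chi2 D = 0 ∨ chi2 D = 1 ∨ chi2 D = -1 := by
    unfold chi2
    split_ifs <;> simp
  have h3 : ∀ k : ℕ, chi2 D ^ k = 0 ∨ chi2 D ^ k = 1 ∨ chi2 D ^ k = -1 := by
    intro k
    induction k with
    | zero => simp
    | succ k ih =>
      rw [pow_succ]
      rcases ih with h | h | h <;> rcases h2 with h' | h' | h' <;> rw [h, h'] <;> simp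
  unfold chi
  rcases jacobiSym.trichotomy D (n / 2 ^ padicValNat 2 n) with h | h | h <;>
    rcases h3 (padicValNat 2 n) with h' | h' | h' <;> rw [h, h'] <;> simp

/-- the product character -/
lemma prod_char {D₁ D₂ : ℕ} (h1 : IsFund D₁) (h2 : IsFund D₂) (hne : D₁ ≠ D₂) :
    ∃ χ : DirichletCharacter ℂ (D₁ * D₂), χ ≠ 1 ∧
      ∀ n : ℕ, 1 ≤ n → χ (n : ZMod (D₁ * D₂)) = (((chi D₁ n : ℝ) * (chi D₂ n : ℝ) : ℝ) : ℂ) := by
  obtain ⟨χ₁, -, hv1⟩ := T_KR D₁ h1
  obtain ⟨χ₂, -, hv2⟩ := T_KR D₂ h2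
  have hD1 := h1.1
  have hD2 := h2.1
  have hpos : 0 < D₁ * D₂ := Nat.mul_pos (by omega) (by omega)
  have : NeZero (D₁ * D₂) := ⟨hpos.ne'⟩
  have d1 : D₁ ∣ D₁ * D₂ := Dvd.intro _ rfl
  have d2 : D₂ ∣ D₁ * D₂ := Dvd.intro_left _ rfl
  have hval : ∀ n : ℕ, 1 ≤ n →
      (χ₁.changeLevel d1 * χ₂.changeLevel d2) (n : ZMod (D₁ * D₂)) =
        (((chi D₁ n : ℝ) * (chi D₂ n : ℝ) : ℝ) : ℂ) := by
    intro n hn
    by_cases hc : Nat.Coprime n (D₁ * D₂)
    · obtain ⟨u, hu⟩ : ∃ u : (ZMod (D₁ * D₂))ˣ, (u : ZMod (D₁ * D₂)) = (n : ZMod (D₁ * D₂)) :=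
        ⟨ZMod.unitOfCoprime n hc, ZMod.coe_unitOfCoprime n hc⟩
      rw [MulChar.mul_apply, ← hu, DirichletCharacter.changeLevel_eq_cast_of_dvd,
        DirichletCharacter.changeLevel_eq_cast_of_dvd, hu, ZMod.cast_natCast d1,
        ZMod.cast_natCast d2, hv1 n hn, hv2 n hn]
      push_cast
      ring
    · have hnu : ¬ IsUnit (n : ZMod (D₁ * D₂)) := by
        rw [ZMod.isUnit_iff_coprime]; exact hc
      rw [MulChar.map_nonunit _ hnu]
      rw [Nat.coprime_mul_iff_right, not_and_or] at hc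
      rcases hc with hc | hc
      · have h3 : χ₁ (n : ZMod D₁) = 0 := MulChar.map_nonunit _ (by
          rw [ZMod.isUnit_iff_coprime]; exact hc)
        rw [hv1 n hn] at h3
        have h4 : chi D₁ n = 0 := by exact_mod_cast h3
        rw [h4]; simp
      · have h3 : χ₂ (n : ZMod D₂) = 0 := MulChar.map_nonunit _ (by
          rw [ZMod.isUnit_iff_coprime]; exact hc)
        rw [hv2 n hn] at h3
        have h4 : chi D₂ n = 0 := by exact_mod_cast h3
        rw [h4]; simp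
  refine ⟨χ₁.changeLevel d1 * χ₂.changeLevel d2, ?_, hval⟩
  intro h
  obtain ⟨n, hn1, hodd, hcop, hj⟩ := exists_neg hpos (not_sq h1 h2 hne)
  have h3 := hval n hn1
  rw [h, MulChar.one_apply ((ZMod.isUnit_iff_coprime _ _).2 hcop), KRh.chi_odd hodd,
    KRh.chi_odd hodd] at h3
  rw [Nat.cast_mul, jacobiSym.mul_left] at hj
  have h4 : ((jacobiSym (D₁ : ℤ) n : ℝ) * (jacobiSym (D₂ : ℤ) n : ℝ)) = -1 := by
    exact_mod_cast hj
  rw [h4] at h3
  norm_num at h3

/-- CHR. -/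
theorem t_CHR : Pool.Agent.N71.RP.E_CHR := by
  intro X D₁ D₂ h1 h2 hX1 hX2 hne
  have e1 : 1 < D₁ := h1.1
  have e2 : 1 < D₂ := h2.1
  have hX : 1 ≤ X := by omega
  have hXr : (1 : ℝ) ≤ X := by exact_mod_cast hX
  have hD1 : (D₁ : ℝ) ≤ X := by exact_mod_cast hX1
  have hD2 : (D₂ : ℝ) ≤ X := by exact_mod_cast hX2
  constructor
  · obtain ⟨χ, hχ, hv⟩ := T_KR D₁ h1
    refine ⟨?_, ?_, ?_, ?_⟩
    · simp [N2h.chi_one]
    · intro a b ha hb
      rw [N2h.chi_mul _ ha hb]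
      push_cast
      ring
    · intro n
      rcases chi_val D₁ n with h | h | h <;> simp [h]
    · intro t
      have h := real_sum (N := D₁) (by omega) χ hχ (fun n => (chi D₁ n : ℝ))
        (fun n hn => by rw [hv n hn]; push_cast; rfl) t
      refine h.trans ?_
      nlinarith
  · obtain ⟨χ, hχ, hv⟩ := prod_char h1 h2 hne
    refine ⟨?_, ?_, ?_, ?_⟩
    · simp [N2h.chi_one]
    · intro a b ha hb
      rw [N2h.chi_mul _ ha hb, N2h.chi_mul _ ha hb]
      push_cast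
      ring
    · intro n
      rcases chi_val D₁ n with h | h | h <;> rcases chi_val D₂ n with h' | h' | h' <;>
        simp [h, h']
    · intro t
      have hpos : 1 ≤ D₁ * D₂ := Nat.mul_pos (by omega) (by omega)
      have h := real_sum hpos χ hχ (fun n => (chi D₁ n : ℝ) * (chi D₂ n : ℝ)) hv t
      refine h.trans ?_
      rw [Nat.cast_mul, sq]
      exact mul_le_mul hD1 hD2 (Nat.cast_nonneg _) (by linarith)

end Pool.Agent.N736.RP
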